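import Pool.Agent.N894.WF.DefsN

namespace Pool.Agent.N825.WF

open scoped commutatorElement

variable {C : Type} [Group C]

/-- ordered product of the commutators `[x t, t]` -/
def P (L : List C) (x : C → C) : C := (L.map (fun t => ⁅x t, t⁆)).prod

lemma P_nil (x : C → C) : P [] x = 1 := rfl

lemma P_cons (a : C) (L : List C) (x : C → C) : P (a :: L) x = ⁅x a, a⁆ * P L x := by simp [P]

lemma P_one (L : List C) : P L (1 : C → C) = 1 := by
  induction L with
  | nil => rfl
  | cons a L ih => rw [P_cons, ih]; simp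

open Classical in
lemma P_off (L : List C) (t g : C) (ht : t ∉ L) : P L (fun s => if s = t then g else 1) = 1 := by
  induction L with
  | nil => rfl
  | cons a L ih =>
    rw [P_cons, ih (fun h => ht (List.mem_cons_of_mem _ h))]
    have : a ≠ t := fun h => ht (h ▸ List.mem_cons_self)
    simp [this]

open Classical in
lemma P_single (L : List C) (hL : L.Nodup) (t g : C) (ht : t ∈ L) :
    P L (fun s => if s = t then g else 1) = ⁅g, t⁆ := by
  induction L with
  | nil => simp at ht
  | cons a L ih =>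
    rw [P_cons]
    rw [List.nodup_cons] at hL
    by_cases h : a = t
    · subst h
      rw [P_off L a g hL.1]
      simp
    · have h2 : t ∈ L := by
        rcases List.mem_cons.1 ht with h3 | h3
        · exact absurd h3.symm h
        · exact h3
      rw [ih hL.2 h2]
      simp [h]

section
variable {D : Type} [Group D] (π : C →* D) (N : Subgroup C)
  (hc : ∀ g ∈ N, ∀ c d : C, π ⁅g, c⁆ * π d = π d * π ⁅g, c⁆)
include hc

lemma mulL (x g t : C) (hg : g ∈ N) : π ⁅x * g, t⁆ = π ⁅x, t⁆ * π ⁅g, t⁆ := by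
  have h : ⁅x * g, t⁆ = x * ⁅g, t⁆ * x⁻¹ * ⁅x, t⁆ := by
    simp only [commutatorElement_def]; group
  rw [h, map_mul, map_mul, map_mul, ← hc g hg t x, ← hc g hg t ⁅x, t⁆, map_inv]
  simp [mul_assoc]

lemma mulR (g c c' : C) (hg : g ∈ N) : π ⁅g, c * c'⁆ = π ⁅g, c⁆ * π ⁅g, c'⁆ := by
  have h : ⁅g, c * c'⁆ = ⁅g, c⁆ * (c * ⁅g, c'⁆ * c⁻¹) := by
    simp only [commutatorElement_def]; group
  rw [h, map_mul, map_mul, map_mul, ← hc g hg c' c, map_inv]
  simp [mul_assoc]

lemma P_mul (L : List C) (x y : C → C) (hy : ∀ t, y t ∈ N) :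
    π (P L (x * y)) = π (P L x) * π (P L y) := by
  induction L with
  | nil => simp [P_nil]
  | cons a L ih =>
    rw [P_cons, P_cons, P_cons, map_mul, map_mul, map_mul, ih, Pi.mul_apply,
      mulL π N hc _ _ _ (hy a)]
    have := hc (y a) (hy a) a (P L x)
    calc π ⁅x a, a⁆ * π ⁅y a, a⁆ * (π (P L x) * π (P L y))
        = π ⁅x a, a⁆ * (π ⁅y a, a⁆ * π (P L x)) * π (P L y) := by simp [mul_assoc]
      _ = π ⁅x a, a⁆ * π (P L x) * (π ⁅y a, a⁆ * π (P L y)) := by rw [this]; simp [mul_assoc]

/-- the values of `π (P L y)`, `y` with values in `N` -/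
def S (L : List C) : Subgroup D where
  carrier := {d | ∃ y : C → C, (∀ t, y t ∈ N) ∧ π (P L y) = d}
  mul_mem' := by
    rintro _ _ ⟨y, hy, rfl⟩ ⟨y', hy', rfl⟩
    exact ⟨y * y', fun t => N.mul_mem (hy t) (hy' t), P_mul π N hc L y y' hy'⟩
  one_mem' := ⟨1, fun t => N.one_mem, by rw [P_one, map_one]⟩
  inv_mem' := by
    rintro _ ⟨y, hy, rfl⟩
    refine ⟨y⁻¹, fun t => N.inv_mem (hy t), ?_⟩
    have h := P_mul π N hc L y⁻¹ y hy
    rw [inv_mul_cancel, P_one, map_one] at h
    exact eq_inv_of_mul_eq_one_left h.symm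

lemma gen_mem (L : List C) (hL : L.Nodup) (hT : Subgroup.closure {t | t ∈ L} = ⊤) (g : C)
    (hg : g ∈ N) (c : C) : π ⁅g, c⁆ ∈ S π N hc L := by
  classical
  have h : c ∈ Subgroup.closure {t | t ∈ L} := by rw [hT]; trivial
  induction h using Subgroup.closure_induction with
  | mem t ht =>
    refine ⟨fun s => if s = t then g else 1, fun s => ?_, ?_⟩
    · dsimp only
      split_ifs
      · exact hg
      · exact N.one_mem
    · rw [P_single L hL t g ht]
  | one => simpa using (S π N hc L).one_mem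
  | mul a b _ _ ha hb => rw [mulR π N hc g a b hg]; exact (S π N hc L).mul_mem ha hb
  | inv a _ ha =>
    have h1 := mulR π N hc g a a⁻¹ hg
    rw [mul_inv_cancel, commutatorElement_one_right, map_one] at h1
    have h2 : π ⁅g, a⁻¹⁆ = (π ⁅g, a⁆)⁻¹ := eq_inv_of_mul_eq_one_right h1.symm
    rw [h2]
    exact (S π N hc L).inv_mem ha

end

lemma approx (L : List C) (hL : L.Nodup) (hT : Subgroup.closure {t | t ∈ L} = ⊤) (z : C)
    (hz : z ∈ commutator C) (n : ℕ) :
    ∃ x : C → C, (P L x)⁻¹ * z ∈ (⊤ : Subgroup C).lowerCentralSeries (n + 1) := by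
  induction n with
  | zero =>
    refine ⟨1, ?_⟩
    rw [P_one, inv_one, one_mul, zero_add, Subgroup.top_lowerCentralSeries_one]
    exact hz
  | succ n ih =>
    obtain ⟨x, hx⟩ := ih
    set N := (⊤ : Subgroup C).lowerCentralSeries n with hN
    set M := (⊤ : Subgroup C).lowerCentralSeries (n + 1 + 1) with hM
    have hc : ∀ g ∈ N, ∀ c d : C, (QuotientGroup.mk' M) ⁅g, c⁆ * (QuotientGroup.mk' M) d =
        (QuotientGroup.mk' M) d * (QuotientGroup.mk' M) ⁅g, c⁆ := by
      intro g hg c d
      have h1 : ⁅g, c⁆ ∈ (⊤ : Subgroup C).lowerCentralSeries (n + 1) := by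
        rw [Subgroup.lowerCentralSeries_succ]
        exact Subgroup.commutator_mem_commutator hg (Subgroup.mem_top c)
      have h2 : ⁅⁅g, c⁆, d⁆ ∈ M := by
        rw [hM, Subgroup.lowerCentralSeries_succ]
        exact Subgroup.commutator_mem_commutator h1 (Subgroup.mem_top d)
      have h3 : (QuotientGroup.mk' M) ⁅⁅g, c⁆, d⁆ = 1 := (QuotientGroup.eq_one_iff _).2 h2
      rw [map_commutatorElement, commutatorElement_eq_one_iff_mul_comm] at h3
      exact h3
    have h4 : (⊤ : Subgroup C).lowerCentralSeries (n + 1) ≤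
        (S (QuotientGroup.mk' M) N hc L).comap (QuotientGroup.mk' M) := by
      rw [Subgroup.lowerCentralSeries_succ, Subgroup.commutator_le]
      intro g hg c _
      exact gen_mem (QuotientGroup.mk' M) N hc L hL hT g hg c
    obtain ⟨y, hy, hyx⟩ := h4 hx
    refine ⟨x * y, ?_⟩
    have h5 := P_mul (QuotientGroup.mk' M) N hc L x y hy
    rw [hyx, ← map_mul, mul_inv_cancel_left] at h5
    exact (QuotientGroup.eq).1 h5

lemma flat (L : List C) (x : C → C) :
    (L.flatMap (fun t => [x t * t * (x t)⁻¹, t⁻¹])).prod = P L x := by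
  induction L with
  | nil => rfl
  | cons a L ih =>
    rw [List.flatMap_cons, List.prod_append, ih, P_cons]
    simp [commutatorElement_def, mul_assoc]

lemma flat_length (L : List C) (x : C → C) :
    (L.flatMap (fun t => [x t * t * (x t)⁻¹, t⁻¹])).length = 2 * L.length := by
  induction L with
  | nil => rfl
  | cons a L ih =>
    rw [List.flatMap_cons, List.length_append, ih]
    simp; ring

open Group Subgroup in
lemma nilIff {C : Type} [Group C] : Group.IsNilpotent C ↔ ∃ n, (⊤ : Subgroup C).lowerCentralSeries n = ⊥ :=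
  Group.isNilpotent_top.symm.trans (Subgroup.isNilpotent_iff_lowerCentralSeries ⊤)

theorem t_N1 : N894.WF.LeafN1 := by
  intro C _ _ T hT z hz
  classical
  obtain ⟨n, hn⟩ := nilIff.1 (inferInstance : Group.IsNilpotent C)
  have hset : {t | t ∈ T.toList} = (T : Set C) := by ext t; simp
  obtain ⟨x, hx⟩ := approx T.toList T.nodup_toList (by rw [hset]; exact hT) z hz n
  have h1 : (P T.toList x)⁻¹ * z ∈ (⊤ : Subgroup C).lowerCentralSeries n :=
    (⊤ : Subgroup C).lowerCentralSeries_antitone (Nat.le_succ n) hx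
  rw [hn, Subgroup.mem_bot] at h1
  have h2 : P T.toList x = z := by
    rw [inv_mul_eq_one] at h1
    exact h1
  refine ⟨T.toList.flatMap (fun t => [x t * t * (x t)⁻¹, t⁻¹]), ?_, ?_, ?_⟩
  · rw [flat_length, Finset.length_toList]
  · intro y hy
    rw [List.mem_flatMap] at hy
    obtain ⟨t, ht, hy⟩ := hy
    refine ⟨t, by simpa using ht, ?_⟩
    rcases List.mem_cons.1 hy with h | h
    · exact ⟨x t, Or.inl h⟩
    · refine ⟨1, Or.inr ?_⟩
      simp at h
      simp [h]
  · rw [flat, h2]

end Pool.Agent.N825.WF
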